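import Pool.Agent.N970.PC.XC
import Pool.Agent.N972.P17.Defs

/-!
# The number of pairs with given Gram matrix, level 17 (project P17, part PC)
-/

set_option autoImplicit false

namespace Pool.Agent.N970.P17

open Finset Matrix
open Pool.Agent.Z700 (hh fac)
open Pool.Agent.Y288.Z7 (cols dd3 crs crs0 crs1 crs2 cols_eq)
open Pool.Agent.N816.P17 (bi F1 F2 sy1 sy2 syG1 syG2 biG1 biG2 bi1 bi2 Sy gram_iff conj_apply)
open Pool.Agent.N970.PC
open Pool.Agent.N969.P15 (tw)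
open Pool.Agent.N972.P17

theorem abs_le_of_sq {x n : ℤ} (h : x ^ 2 ≤ n) : |x| ≤ n := by
  have h1 : |x| ≤ x ^ 2 := by
    rw [← sq_abs]
    nlinarith [abs_nonneg x, sq_nonneg (|x| - 1), Int.le_self_sq |x|]
  exact h1.trans h

theorem L1 : Lat 17 F1 G1 where
  sG := syG1
  lag := by
    intro v w z
    simp only [biG1, bi1, crs0, crs1, crs2]
    push_cast
    ring
  dual := by
    intro v w z
    simp only [biG1, bi1, crs0, crs1, crs2, dd3]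
    ring
  ev := by
    intro v
    rw [bi1]
    exact ⟨3 * v 0 ^ 2 + 2 * v 1 ^ 2 + v 2 ^ 2 + 2 * v 0 * v 1 + v 0 * v 2 + v 1 * v 2, by ring⟩
  pos := by
    intro v
    rw [bi1]
    nlinarith [sq_nonneg (v 0 + v 1), sq_nonneg (v 0 + v 2), sq_nonneg (v 1 + v 2),
      sq_nonneg (v 0), sq_nonneg (v 1), sq_nonneg (v 2)]
  bd := by
    intro v i
    apply abs_le_of_sq
    rw [biG1]
    fin_cases i
    · show v 0 ^ 2 ≤ _
      nlinarith [sq_nonneg (v 0 - v 1), sq_nonneg (v 0 - v 2), sq_nonneg (v 1 - v 2),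
        sq_nonneg (v 0), sq_nonneg (v 1), sq_nonneg (v 2)]
    · show v 1 ^ 2 ≤ _
      nlinarith [sq_nonneg (v 0 - v 1), sq_nonneg (v 0 - v 2), sq_nonneg (v 1 - v 2),
        sq_nonneg (v 0), sq_nonneg (v 1), sq_nonneg (v 2)]
    · show v 2 ^ 2 ≤ _
      nlinarith [sq_nonneg (v 0 - v 1), sq_nonneg (v 0 - v 2), sq_nonneg (v 1 - v 2),
        sq_nonneg (v 0), sq_nonneg (v 1), sq_nonneg (v 2)]

theorem L2 : Lat 17 F2 G2 where
  sG := syG2
  lag := by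
    intro v w z
    simp only [biG2, bi2, crs0, crs1, crs2]
    push_cast
    ring
  dual := by
    intro v w z
    simp only [biG2, bi2, crs0, crs1, crs2, dd3]
    ring
  ev := by
    intro v
    rw [bi2]
    exact ⟨6 * v 0 ^ 2 + v 1 ^ 2 + v 2 ^ 2 + v 0 * v 1 + v 0 * v 2 + v 1 * v 2, by ring⟩
  pos := by
    intro v
    rw [bi2]
    nlinarith [sq_nonneg (v 0 + v 1), sq_nonneg (v 0 + v 2), sq_nonneg (v 1 + v 2),
      sq_nonneg (v 0), sq_nonneg (v 1), sq_nonneg (v 2)]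
  bd := by
    intro v i
    apply abs_le_of_sq
    rw [biG2]
    fin_cases i
    · show v 0 ^ 2 ≤ _
      nlinarith [sq_nonneg (v 0 - v 1), sq_nonneg (v 0 - v 2), sq_nonneg (v 1 - v 2),
        sq_nonneg (v 0), sq_nonneg (v 1), sq_nonneg (v 2)]
    · show v 1 ^ 2 ≤ _
      nlinarith [sq_nonneg (v 0 - v 1), sq_nonneg (v 0 - v 2), sq_nonneg (v 1 - v 2),
        sq_nonneg (v 0), sq_nonneg (v 1), sq_nonneg (v 2)]
    · show v 2 ^ 2 ≤ _
      nlinarith [sq_nonneg (v 0 - v 1), sq_nonneg (v 0 - v 2), sq_nonneg (v 1 - v 2),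
        sq_nonneg (v 0), sq_nonneg (v 1), sq_nonneg (v 2)]

theorem ip1_eq (v w : Fin 3 → ℤ) : ip1 v w = bi G1 v w := (biG1 v w).symm

theorem ip2_eq (v w : Fin 3 → ℤ) : ip2 v w = bi G2 v w := (biG2 v w).symm

theorem mem_Icc_of {F G : Matrix (Fin 3) (Fin 3) ℤ} (L : Lat 17 F G) {v : Fin 3 → ℤ} {n : ℤ}
    (h : bi G v v = n) (i : Fin 3) : v i ∈ Finset.Icc (-n) n := by
  have h1 := L.bd v i
  rw [h] at h1
  exact Finset.mem_Icc.2 (abs_le.1 h1)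

theorem mem_vec1 (n : ℤ) (v : Fin 3 → ℤ) : v ∈ vec1 n ↔ bi G1 v v = n := by
  rw [vec1, Finset.mem_filter, Fintype.mem_piFinset, ip1_eq]
  exact ⟨fun h => h.2, fun h => ⟨fun i => mem_Icc_of L1 h i, h⟩⟩

theorem mem_vec2 (n : ℤ) (v : Fin 3 → ℤ) : v ∈ vec2 n ↔ bi G2 v v = n := by
  rw [vec2, Finset.mem_filter, Fintype.mem_piFinset, ip2_eq]
  exact ⟨fun h => h.2, fun h => ⟨fun i => mem_Icc_of L2 h i, h⟩⟩

theorem card_pairs1 (n1 n2 : ℕ) (b : ℤ) : Nat.card (Pairs G1 n1 n2 b) = cp1 n1 b n2 := by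
  rw [cp1]
  apply Nat.subtype_card
  intro q
  rw [Finset.mem_filter, Finset.mem_product, mem_vec1, mem_vec1, ip1_eq, and_assoc]

theorem card_pairs2 (n1 n2 : ℕ) (b : ℤ) : Nat.card (Pairs G2 n1 n2 b) = cp2 n1 b n2 := by
  rw [cp2]
  apply Nat.subtype_card
  intro q
  rw [Finset.mem_filter, Finset.mem_product, mem_vec2, mem_vec2, ip2_eq, and_assoc]

/-- finitely many frames -/
theorem fin_frames {F G : Matrix (Fin 3) (Fin 3) ℤ} (L : Lat 17 F G)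
    (M : Matrix (Fin 3) (Fin 3) ℤ) :
    Finite {A : Matrix (Fin 3) (Fin 3) ℤ // Aᵀ * G * A = M ∧ A.det = 1} := by
  classical
  let B : Fin 3 → Fin 3 → Finset ℤ := fun _ j => Finset.Icc (-(M j j)) (M j j)
  have hfin : (Set.Finite {A : Matrix (Fin 3) (Fin 3) ℤ | ∀ i j, A i j ∈ B i j}) := by
    have h1 : Set.Finite (Set.pi Set.univ fun i : Fin 3 =>
        Set.pi Set.univ fun j : Fin 3 => (B i j : Set ℤ)) :=
      Set.Finite.pi fun i => Set.Finite.pi fun j => (B i j).finite_toSet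
    refine h1.subset ?_
    intro A hA i _ j _
    exact hA i j
  refine Set.Finite.subset hfin ?_
  rintro A ⟨hA, -⟩ i j
  have h2 : bi G (fun k => A k j) (fun k => A k j) = M j j := by
    rw [← conj_apply, hA]
  exact mem_Icc_of L h2 i

theorem card_frames {n1 : ℕ} (hs : Squarefree n1) (h10 : Nat.Coprime n1 (2 * 17)) (b : ℤ) (Q : ℕ)
    (hT : S_TORS) :
    3 * Nat.card (Fr 17 G1 n1 b Q) + Nat.card (Fr 17 G2 n1 b Q) = 6 * (XX 17 n1 b Q).card := by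
  have h1 : ∀ x : {x : ℕ × ℕ × ℕ × ℕ // x ∈ XX 17 n1 b Q},
      Finite {A : Matrix (Fin 3) (Fin 3) ℤ // Aᵀ * G1 * A = mm 17 n1 Q x.1 ∧ A.det = 1} :=
    fun x => fin_frames L1 _
  have h2 : ∀ x : {x : ℕ × ℕ × ℕ × ℕ // x ∈ XX 17 n1 b Q},
      Finite {A : Matrix (Fin 3) (Fin 3) ℤ // Aᵀ * G2 * A = mm 17 n1 Q x.1 ∧ A.det = 1} :=
    fun x => fin_frames L2 _
  have h3 : ∀ x : {x : ℕ × ℕ × ℕ × ℕ // x ∈ XX 17 n1 b Q},
      3 * Nat.card {A : Matrix (Fin 3) (Fin 3) ℤ // Aᵀ * G1 * A = mm 17 n1 Q x.1 ∧ A.det = 1} +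
      Nat.card {A : Matrix (Fin 3) (Fin 3) ℤ // Aᵀ * G2 * A = mm 17 n1 Q x.1 ∧ A.det = 1} = 6 := by
    rintro ⟨⟨e, μ, β, ν⟩, hx⟩
    obtain ⟨M, hM, hM2⟩ := mm_pos (by norm_num) hs h10 hx
    rw [← hM2]
    obtain ⟨a1, a2, a3, a4, a5⟩ := hM
    exact hT M ⟨a1, a2, a3, by rw [a4]; norm_num, a5⟩
  rw [Nat.card_sigma, Nat.card_sigma, Finset.mul_sum, ← Finset.sum_add_distrib,
    Finset.sum_congr rfl (fun x _ => h3 x), Finset.sum_const, smul_eq_mul,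
    Finset.card_univ, Fintype.card_coe, mul_comm]

/-- seven times the norm -/
theorem seven_bi (v : Fin 3 → ℤ) : 7 * bi G1 v v = (7 * v 0 - 3 * v 1 - 2 * v 2) ^ 2 +
    68 * (v 1 ^ 2 - v 1 * v 2 + 2 * v 2 ^ 2) := by
  rw [biG1]; ring

theorem three_bi (v : Fin 3 → ℤ) : 3 * bi G2 v v = (3 * v 0 - v 1 - v 2) ^ 2 +
    68 * (v 1 ^ 2 - v 1 * v 2 + v 2 ^ 2) := by
  rw [biG2]; ring

theorem js17 {n : ℤ} (h : jacobiSym n 17 = 1) : n % 17 = 1 ∨ n % 17 = 2 ∨ n % 17 = 4 ∨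
    n % 17 = 8 ∨ n % 17 = 9 ∨ n % 17 = 13 ∨ n % 17 = 15 ∨ n % 17 = 16 := by
  rw [jacobiSym.mod_left] at h
  have h1 : 0 ≤ n % (17 : ℕ) := Int.emod_nonneg _ (by norm_num)
  have h2 : n % (17 : ℕ) < 17 := Int.emod_lt_of_pos _ (by norm_num)
  have h3 : n % (17 : ℕ) = n % 17 := rfl
  rw [h3] at h h1 h2
  generalize n % 17 = r at h h1 h2 ⊢
  interval_cases r <;> first | omega | (exfalso; revert h; decide +kernel)

theorem no_vec1 {n1 : ℕ} {v : Fin 3 → ℤ} (hv : bi G1 v v = n1) :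
    jacobiSym (-(n1 : ℤ)) 17 ≠ 1 := by
  intro hj
  have h := seven_bi v
  rw [hv] at h
  have hr := js17 hj
  generalize 7 * v 0 - 3 * v 1 - 2 * v 2 = u at h
  generalize v 1 ^ 2 - v 1 * v 2 + 2 * v 2 ^ 2 = q at h
  have h1 : (7 * (n1 : ℤ)) % 17 = (u ^ 2) % 17 := by omega
  have h3 : u % 17 = 0 ∨ u % 17 = 1 ∨ u % 17 = 2 ∨ u % 17 = 3 ∨ u % 17 = 4 ∨ u % 17 = 5 ∨
    u % 17 = 6 ∨ u % 17 = 7 ∨ u % 17 = 8 ∨ u % 17 = 9 ∨ u % 17 = 10 ∨ u % 17 = 11 ∨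
    u % 17 = 12 ∨ u % 17 = 13 ∨ u % 17 = 14 ∨ u % 17 = 15 ∨ u % 17 = 16 := by omega
  have h2 : u ^ 2 % 17 = 0 ∨ u ^ 2 % 17 = 1 ∨ u ^ 2 % 17 = 2 ∨ u ^ 2 % 17 = 4 ∨ u ^ 2 % 17 = 8 ∨
    u ^ 2 % 17 = 9 ∨ u ^ 2 % 17 = 13 ∨ u ^ 2 % 17 = 15 ∨ u ^ 2 % 17 = 16 := by
    rcases h3 with h3 | h3 | h3 | h3 | h3 | h3 | h3 | h3 | h3 | h3 | h3 | h3 | h3 | h3 | h3 | h3 | h3
      <;> simp [pow_two, Int.mul_emod, h3]
  omega

theorem no_vec2 {n1 : ℕ} {v : Fin 3 → ℤ} (hv : bi G2 v v = n1) :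
    jacobiSym (-(n1 : ℤ)) 17 ≠ 1 := by
  intro hj
  have h := three_bi v
  rw [hv] at h
  have hr := js17 hj
  generalize 3 * v 0 - v 1 - v 2 = u at h
  generalize v 1 ^ 2 - v 1 * v 2 + v 2 ^ 2 = q at h
  have h1 : (3 * (n1 : ℤ)) % 17 = (u ^ 2) % 17 := by omega
  have h3 : u % 17 = 0 ∨ u % 17 = 1 ∨ u % 17 = 2 ∨ u % 17 = 3 ∨ u % 17 = 4 ∨ u % 17 = 5 ∨
    u % 17 = 6 ∨ u % 17 = 7 ∨ u % 17 = 8 ∨ u % 17 = 9 ∨ u % 17 = 10 ∨ u % 17 = 11 ∨
    u % 17 = 12 ∨ u % 17 = 13 ∨ u % 17 = 14 ∨ u % 17 = 15 ∨ u % 17 = 16 := by omega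
  have h2 : u ^ 2 % 17 = 0 ∨ u ^ 2 % 17 = 1 ∨ u ^ 2 % 17 = 2 ∨ u ^ 2 % 17 = 4 ∨ u ^ 2 % 17 = 8 ∨
    u ^ 2 % 17 = 9 ∨ u ^ 2 % 17 = 13 ∨ u ^ 2 % 17 = 15 ∨ u ^ 2 % 17 = 16 := by
    rcases h3 with h3 | h3 | h3 | h3 | h3 | h3 | h3 | h3 | h3 | h3 | h3 | h3 | h3 | h3 | h3 | h3 | h3
      <;> simp [pow_two, Int.mul_emod, h3]
  omega

theorem s_PC (hT : S_TORS) : S_PC := by
  intro n1 n2 b D hs h3 h5 hD hDD
  have p17 : Nat.Prime 17 := by norm_num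
  rw [← card_pairs1, ← card_pairs2]
  by_cases h20 : 4 * 17 ∣ D
  · obtain ⟨Q, rfl⟩ := h20
    have hQ : 0 < Q := by omega
    have hDD' : 4 * ((17 : ℕ) : ℤ) * (Q : ℤ) = n1 * n2 - b ^ 2 := by
      rw [← hDD]; push_cast; ring
    have h10 : Nat.Coprime n1 (2 * 17) := by
      have h2 : Nat.Coprime n1 2 :=
        ((Nat.Prime.coprime_iff_not_dvd Nat.prime_two).2 (by omega)).symm
      have h5' : Nat.Coprime n1 17 := ((Nat.Prime.coprime_iff_not_dvd p17).2 h5).symm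
      exact Nat.Coprime.mul_right h2 h5'
    have hX := card_XX p17 (by norm_num) hs h3 h5 hQ hDD'
    have hv17 := fact_c0 p17 (by norm_num) hQ
    have hcnt : 3 * Nat.card (Pairs G1 n1 n2 b) + Nat.card (Pairs G2 n1 n2 b) =
        6 * (XX 17 n1 b Q).card := by
      rw [t_CNT L1 (by norm_num) hs hQ hDD', t_CNT L2 (by norm_num) hs hQ hDD']
      exact card_frames hs h10 b Q hT
    have hcnt' : (3 * Nat.card (Pairs G1 n1 n2 b) + Nat.card (Pairs G2 n1 n2 b) : ℤ) =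
        6 * (XX 17 n1 b Q).card := by exact_mod_cast hcnt
    have hJ : jacobiSym (-(n1 : ℤ)) 17 = 1 ∨ jacobiSym (-(n1 : ℤ)) 17 = -1 := by
      apply jacobiSym.eq_one_or_neg_one
      rw [Int.neg_gcd, Int.gcd_natCast_natCast]
      exact ((Nat.Prime.coprime_iff_not_dvd p17).2 h5).symm
    rcases hJ with hJ | hJ
    · have z1 : Nat.card (Pairs G1 n1 n2 b) = 0 := by
        have : IsEmpty (Pairs G1 n1 n2 b) := ⟨fun q => no_vec1 q.2.1 hJ⟩
        exact Nat.card_of_isEmpty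
      have z2 : Nat.card (Pairs G2 n1 n2 b) = 0 := by
        have : IsEmpty (Pairs G2 n1 n2 b) := ⟨fun q => no_vec2 q.2.1 hJ⟩
        exact Nat.card_of_isEmpty
      rw [z1, z2] at hcnt'
      have hX0 : ((XX 17 n1 b Q).card : ℤ) = 0 := by
        push_cast at hcnt'
        linarith
      rw [hX0, (sum_sign (Or.inl hJ) _).1 hJ] at hX
      have h6 : tw n1 (4 * 17 * Q) * ∏ l ∈ ((4 * 17 * Q).primeFactors.erase 2).erase 17,
          fac n1 (4 * 17 * Q) l = 0 := by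
        rcases mul_eq_zero.1 hX.symm with h8 | h8
        · exfalso
          have : (Q.factorization 17 + 1 : ℕ) = 0 := by exact_mod_cast h8
          omega
        · exact h8
      rw [z1, z2]
      unfold loc
      split_ifs
      · rw [h6]; simp
      · simp
    · rw [hcnt', hX, (sum_sign (Or.inr hJ) _).2 hJ]
      unfold loc
      rw [hv17]
      by_cases hm : Odd (Q.factorization 17)
      · rw [if_pos hm, if_neg (by rw [Nat.not_odd_iff_even]; exact hm.add_one)]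
        ring
      · rw [if_neg hm, if_pos (by
          rw [Nat.not_odd_iff_even] at hm; exact hm.add_one)]
        ring
  · rw [no_pairs L1 hDD h20, no_pairs L2 hDD h20]
    unfold loc
    split_ifs with h
    · have h5D : 17 ∣ D := by
        by_contra hc
        rw [Nat.factorization_eq_zero_of_not_dvd hc] at h
        exact absurd h (by decide)
      have h4D : ¬ 4 ∣ D := by
        intro h4
        exact h20 (Nat.Coprime.mul_dvd_of_dvd_of_dvd (by norm_num : Nat.Coprime 4 17) h4 h5D)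
      have h2 : D.factorization 2 - 1 = 0 := by
        have : ¬ 2 ≤ D.factorization 2 := by
          intro h2
          exact h4D ((Nat.Prime.pow_dvd_iff_le_factorization Nat.prime_two hD.ne').2 h2)
        omega
      unfold tw
      rw [h2]
      simp
    · simp

/-- PC of P17 -/
theorem t_PC : S_PC := s_PC Pool.Agent.N816.P17.t_TORS

end Pool.Agent.N970.P17
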