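import Pool.Agent.N970.PCE.E
import Pool.Agent.N970.P17.PC
import Pool.Agent.N972.P17.Defs2

/-!
# The number of pairs with given Gram matrix for even norms, level 17 (project P17, part PCE)
-/

set_option autoImplicit false

namespace Pool.Agent.N970.P17

open Finset Matrix
open Pool.Agent.Z700 (hh fac)
open Pool.Agent.Y288.Z7 (cols dd3 crs crs0 crs1 crs2 cols_eq)
open Pool.Agent.N816.P17 (bi F1 F2 sy1 sy2 syG1 syG2 biG1 biG2 bi1 bi2 Sy gram_iff conj_apply)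
open Pool.Agent.N970.PC
open Pool.Agent.N970.PCE
open Pool.Agent.N969.P15 (tw tb Ev)
open Pool.Agent.N972.P17
open Pool.Agent.N575.P15.PCE (sq_par)

theorem mod4_sq (s k : ℤ) : (-s ^ 2 + 4 * k) % 4 = 0 ∨ (-s ^ 2 + 4 * k) % 4 = 3 := by
  rcases Int.emod_two_eq_zero_or_one s with hs | hs
  · obtain ⟨t, rfl⟩ : ∃ t, s = 2 * t := ⟨s / 2, by omega⟩
    left
    have : -(2 * t) ^ 2 + 4 * k = 4 * (k - t ^ 2) := by ring
    rw [this]
    omega
  · obtain ⟨t, rfl⟩ : ∃ t, s = 2 * t + 1 := ⟨s / 2, by omega⟩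
    right
    have : -(2 * t + 1) ^ 2 + 4 * k = 4 * (k - t ^ 2 - t - 1) + 3 := by ring
    rw [this]
    omega

theorem LE1 : LatE 17 F1 G1 where
  toLat := L1
  d1 := by
    intro v w z
    simp only [biG1, bi1, crs0, crs1, crs2]
    ring
  d2 := by
    intro v w z
    simp only [biG1, bi1, crs0, crs1, crs2]
    ring
  d3 := by
    intro v w z
    simp only [biG1, bi1, crs0, crs1, crs2, dd3]
    push_cast
    ring
  m4 := by
    intro u
    have h : bi G1 u u = -(u 0 + u 1) ^ 2 + 4 * (2 * u 0 ^ 2 + 3 * u 1 ^ 2 + 5 * u 2 ^ 2 -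
        u 0 * u 1 - u 0 * u 2 - 2 * u 1 * u 2) := by
      rw [biG1]; ring
    rw [h]
    exact mod4_sq _ _

theorem LE2 : LatE 17 F2 G2 where
  toLat := L2
  d1 := by
    intro v w z
    simp only [biG2, bi2, crs0, crs1, crs2]
    ring
  d2 := by
    intro v w z
    simp only [biG2, bi2, crs0, crs1, crs2]
    ring
  d3 := by
    intro v w z
    simp only [biG2, bi2, crs0, crs1, crs2, dd3]
    push_cast
    ring
  m4 := by
    intro u
    have h : bi G2 u u = -(u 0 + u 1 + u 2) ^ 2 + 4 * (u 0 ^ 2 + 6 * u 1 ^ 2 + 6 * u 2 ^ 2 -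
        5 * (u 1 * u 2)) := by
      rw [biG2]; ring
    rw [h]
    exact mod4_sq _ _

theorem card_framesE (n1 : ℕ) (b : ℤ) (Q : ℕ) (hT : S_TORS) :
    3 * Nat.card (FrE 17 G1 n1 b Q) + Nat.card (FrE 17 G2 n1 b Q) =
      6 * (XE 17 n1 b Q).card := by
  have h1 : ∀ x : {x : ℕ × ℕ × ℕ × ℕ // x ∈ XE 17 n1 b Q},
      Finite {A : Matrix (Fin 3) (Fin 3) ℤ // Aᵀ * G1 * A = mm 17 n1 Q x.1 ∧ A.det = 1} :=
    fun x => fin_frames L1 _
  have h2 : ∀ x : {x : ℕ × ℕ × ℕ × ℕ // x ∈ XE 17 n1 b Q},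
      Finite {A : Matrix (Fin 3) (Fin 3) ℤ // Aᵀ * G2 * A = mm 17 n1 Q x.1 ∧ A.det = 1} :=
    fun x => fin_frames L2 _
  have h3 : ∀ x : {x : ℕ × ℕ × ℕ × ℕ // x ∈ XE 17 n1 b Q},
      3 * Nat.card {A : Matrix (Fin 3) (Fin 3) ℤ // Aᵀ * G1 * A = mm 17 n1 Q x.1 ∧ A.det = 1} +
      Nat.card {A : Matrix (Fin 3) (Fin 3) ℤ // Aᵀ * G2 * A = mm 17 n1 Q x.1 ∧ A.det = 1} = 6 := by
    rintro ⟨⟨e, μ, β, ν⟩, hx⟩
    obtain ⟨M, hM, hM2⟩ := mm_posE (by norm_num) hx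
    rw [← hM2]
    obtain ⟨a1, a2, a3, a4, a5⟩ := hM
    exact hT M ⟨a1, a2, a3, by rw [a4]; norm_num, a5⟩
  rw [Nat.card_sigma, Nat.card_sigma, Finset.mul_sum, ← Finset.sum_add_distrib,
    Finset.sum_congr rfl (fun x _ => h3 x), Finset.sum_const, smul_eq_mul,
    Finset.card_univ, Fintype.card_coe, mul_comm]

/-- the weighted number of pairs -/
theorem cpE (hT : S_TORS) {m n2 Q : ℕ} {b : ℤ} (hs : Squarefree m) (hm : m % 4 = 1 ∨ m % 4 = 2)
    (hQ : 0 < Q) (h4 : 4 ∣ n2) (hDD : ((4 * 17 * Q : ℕ) : ℤ) = (4 * m : ℕ) * n2 - b ^ 2)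
    (h5 : (¬ 17 ∣ m ∧ jacobiSym (-(m : ℤ)) 17 = -1) ∨
      (17 ∣ m ∧ hh (4 * m) (4 * 17 * Q) 17 = -1)) :
    (3 * cp1 (4 * m : ℕ) b n2 + cp2 (4 * m : ℕ) b n2 : ℤ) =
      6 * ((Pool.Agent.Y155.Z7.S m (17 ^ Q.factorization 17) : ℤ) *
      (tb b * ∏ l ∈ ((4 * 17 * Q).primeFactors.erase 2).erase 17, fac (4 * m) (4 * 17 * Q) l)) := by
  have p17 : Nat.Prime 17 := by norm_num
  have hm1 : 0 < m := Nat.pos_of_ne_zero hs.ne_zero
  have hDD' : 4 * ((17 : ℕ) : ℤ) * (Q : ℤ) = (4 * m : ℕ) * n2 - b ^ 2 := by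
    rw [← hDD]; push_cast; ring
  have hX := card_XE p17 (by norm_num) hs hm hQ h4 hDD' (by
    rcases h5 with h | h
    · exact Or.inl h
    · exact Or.inr ⟨by norm_num, h⟩)
  have hcnt : 3 * Nat.card (Pairs G1 (4 * m) n2 b) + Nat.card (Pairs G2 (4 * m) n2 b) =
      6 * (XE 17 (4 * m) b Q).card := by
    rw [t_CNTE LE1 (by norm_num) (by omega) (prim_of_four LE1 hs hm) hQ hDD',
      t_CNTE LE2 (by norm_num) (by omega) (prim_of_four LE2 hs hm) hQ hDD']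
    exact card_framesE (4 * m) b Q hT
  rw [← hX, ← card_pairs1, ← card_pairs2]
  exact_mod_cast hcnt

theorem tb_zero {m n2 D : ℕ} {b : ℤ} (hDD : (D : ℤ) = (4 * m : ℕ) * n2 - b ^ 2) (h4 : ¬ 4 ∣ D) :
    tb b = 0 := by
  obtain ⟨q, hq⟩ := sq_par b
  have e : (((4 * m : ℕ) : ℤ)) * n2 = 4 * (m * n2) := by push_cast; ring
  rw [e] at hDD
  generalize (m : ℤ) * n2 = k at hDD
  unfold tb
  split_ifs <;> omega

theorem s_PCE (hT : S_TORS) : S_PCE := by
  intro n1 n2 b D hEv h23 h4 hD hDD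
  obtain ⟨m, rfl, hs, hm⟩ := hEv
  have p17 : Nat.Prime 17 := by norm_num
  have hJm : jacobiSym m 17 = -1 := by
    push_cast at h23
    rwa [J_four p17 (by norm_num)] at h23
  have h5 : ¬ 17 ∣ m := by
    intro h
    have h0 : jacobiSym m 17 = 0 := by
      rw [jacobiSym.eq_zero_iff]
      refine ⟨by norm_num, ?_⟩
      rw [Int.gcd_natCast_natCast]
      intro h1
      have := Nat.dvd_gcd h (dvd_refl 17)
      rw [h1] at this
      omega
    rw [h0] at hJm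
    norm_num at hJm
  have hJ : jacobiSym (-(m : ℤ)) 17 = -1 := by rw [J_neg p17 (by norm_num)]; exact hJm
  by_cases h20 : 4 * 17 ∣ D
  · obtain ⟨Q, rfl⟩ := h20
    have hQ : 0 < Q := by omega
    rw [cpE hT hs hm hQ h4 hDD (Or.inl ⟨h5, hJ⟩), S_at_c0 p17 (by norm_num) hs h5 hJ]
    have hv5 := fact_c0 p17 (by norm_num) hQ
    unfold locE
    rw [hv5]
    rcases Nat.even_or_odd (Q.factorization 17) with h | h
    · rw [if_pos h, if_pos h.add_one, one_mul]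
    · rw [if_neg (by rw [Nat.not_even_iff_odd]; exact h),
        if_neg (by rw [Nat.not_odd_iff_even]; exact h.add_one), zero_mul]
  · rw [← card_pairs1, ← card_pairs2, no_pairs L1 hDD h20, no_pairs L2 hDD h20]
    unfold locE
    split_ifs with h
    · have h5D : 17 ∣ D := by
        by_contra hc
        rw [Nat.factorization_eq_zero_of_not_dvd hc] at h
        exact absurd h (by decide)
      have h4D : ¬ 4 ∣ D := by
        intro h4
        exact h20 (Nat.Coprime.mul_dvd_of_dvd_of_dvd (by norm_num : Nat.Coprime 4 17) h4 h5D)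
      rw [tb_zero hDD h4D]
      simp
    · simp

/-- PCE of P17 -/
theorem t_PCE : S_PCE := s_PCE Pool.Agent.N816.P17.t_TORS

end Pool.Agent.N970.P17
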