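import Pool.Agent.N970.PCE.R
import Pool.Agent.N970.P17.PCE
import Pool.Agent.N972.P17.Defs3

/-!
# The number of pairs with given Gram matrix, level 17, norms divisible by 17 (PCR, PCRE)
-/

set_option autoImplicit false

namespace Pool.Agent.N970.P17

open Finset Matrix
open Pool.Agent.Z700 (hh fac)
open Pool.Agent.Y288.Z7 (cols dd3 dt crs crs0 crs1 crs2 cols_eq)
open Pool.Agent.N816.P17 (bi F1 F2 sy1 sy2 syG1 syG2 biG1 biG2 bi1 bi2 Sy gram_iff conj_apply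
  bi_comm)
open Pool.Agent.N970.PC
open Pool.Agent.N970.PCE
open Pool.Agent.N969.P15 (tw tb Ev)
open Pool.Agent.N972.P17

theorem an1 : ∀ X Y : ZMod 17, 3 * X ^ 2 + 2 * X * Y + 2 * Y ^ 2 = 0 → X = 0 ∧ Y = 0 := by
  decide +kernel

theorem an2 : ∀ X Y : ZMod 17, 6 * X ^ 2 + X * Y + Y ^ 2 = 0 → X = 0 ∧ Y = 0 := by
  decide +kernel

theorem LR1 : LatR 17 F1 G1 ![7, -3, -2] 7 where
  iso := by
    intro x hx
    rw [bi1] at hx
    have h2 : (17 : ℤ) ∣ 3 * (x 0 - 56 * x 2) ^ 2 + 2 * (x 0 - 56 * x 2) * (x 1 + 24 * x 2) +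
        2 * (x 1 + 24 * x 2) ^ 2 := by
      have h3 : (17 : ℤ) ∣ 2 * (3 * (x 0 - 56 * x 2) ^ 2 +
          2 * (x 0 - 56 * x 2) * (x 1 + 24 * x 2) + 2 * (x 1 + 24 * x 2) ^ 2) := by
        obtain ⟨q, hq⟩ := hx
        push_cast at hq
        refine ⟨q + (-34) * x 0 * x 2 + 926 * x 2 ^ 2 + (-2) * x 1 * x 2, ?_⟩
        linear_combination hq
      exact (by norm_num : IsCoprime (17 : ℤ) 2).dvd_of_dvd_mul_left h3
    have h4 : (((x 0 - 56 * x 2 : ℤ)) : ZMod 17) = 0 ∧ ((x 1 + 24 * x 2 : ℤ) : ZMod 17) = 0 := by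
      apply an1
      have := (ZMod.intCast_zmod_eq_zero_iff_dvd _ 17).2 h2
      push_cast at this ⊢
      exact this
    obtain ⟨a, ha⟩ := (ZMod.intCast_zmod_eq_zero_iff_dvd _ 17).1 h4.1
    obtain ⟨c, hc⟩ := (ZMod.intCast_zmod_eq_zero_iff_dvd _ 17).1 h4.2
    refine ⟨8 * x 2, ![a, c, x 2], ?_⟩
    funext i
    push_cast at ha hc
    fin_cases i
    · show x 0 = 8 * x 2 * 7 + ((17 : ℕ) : ℤ) * a
      push_cast
      linear_combination ha
    · show x 1 = 8 * x 2 * (-3) + ((17 : ℕ) : ℤ) * c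
      push_cast
      linear_combination hc
    · show x 2 = 8 * x 2 * (-2) + ((17 : ℕ) : ℤ) * x 2
      push_cast
      ring
  ker := by
    intro y
    rw [bi1]
    refine ⟨2 * y 0, ?_⟩
    simp
    ring
  rr := by
    rw [bi1]
    simp
  jk := by norm_num
  gv := by
    intro v hv
    have h7 := seven_bi v
    obtain ⟨q, hq⟩ := hv
    rw [hq] at h7
    have h1 : (17 : ℤ) ∣ 7 * v 0 - 3 * v 1 - 2 * v 2 := by
      have p : Prime (17 : ℤ) := by norm_num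
      apply p.dvd_of_dvd_pow (n := 2)
      refine ⟨7 * q - 4 * (v 1 ^ 2 - v 1 * v 2 + 2 * v 2 ^ 2), ?_⟩
      push_cast at h7
      linear_combination -h7
    obtain ⟨a, ha⟩ := h1
    obtain ⟨b, hb⟩ : ∃ b, -3 * v 0 + 11 * v 1 - 4 * v 2 = 17 * b :=
      ⟨2 * a - v 0 + v 1, by linear_combination 2 * ha⟩
    obtain ⟨c, hc⟩ : ∃ c, -2 * v 0 - 4 * v 1 + 20 * v 2 = 17 * c :=
      ⟨-10 * a + 4 * v 0 - 2 * v 1, by linear_combination (-10) * ha⟩
    have key : ∀ x : Fin 3 → ℤ, bi F1 x ![a, b, c] = 2 * dt v x := by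
      intro x
      have e0 : (![a, b, c] : Fin 3 → ℤ) 0 = a := rfl
      have e1 : (![a, b, c] : Fin 3 → ℤ) 1 = b := rfl
      have e2 : (![a, b, c] : Fin 3 → ℤ) 2 = c := rfl
      rw [bi1, e0, e1, e2]
      apply mul_left_cancel₀ (by norm_num : (17 : ℤ) ≠ 0)
      simp only [dt]
      linear_combination (-(6 * x 0 + 2 * x 1 + x 2)) * ha - (2 * x 0 + 4 * x 1 + x 2) * hb -
        (x 0 + x 1 + 2 * x 2) * hc
    refine ⟨![a, b, c], key, ?_⟩
    rw [key, biG1]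
    show ((17 : ℕ) : ℤ) * (2 * (v 0 * a + v 1 * b + v 2 * c)) = _
    push_cast
    linear_combination (-2 * v 0) * ha - 2 * v 1 * hb - 2 * v 2 * hc
  sF := fun x y => bi_comm sy1 x y

theorem LR2 : LatR 17 F2 G2 ![3, -1, -1] 3 where
  iso := by
    intro x hx
    rw [bi2] at hx
    have h2 : (17 : ℤ) ∣ 6 * (x 0 + 3 * x 2) ^ 2 + (x 0 + 3 * x 2) * (x 1 - x 2) +
        (x 1 - x 2) ^ 2 := by
      have h3 : (17 : ℤ) ∣ 2 * (6 * (x 0 + 3 * x 2) ^ 2 + (x 0 + 3 * x 2) * (x 1 - x 2) +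
        (x 1 - x 2) ^ 2) := by
        obtain ⟨q, hq⟩ := hx
        push_cast at hq
        refine ⟨q + 4 * x 0 * x 2 + 6 * x 2 ^ 2, ?_⟩
        linear_combination hq
      exact (by norm_num : IsCoprime (17 : ℤ) 2).dvd_of_dvd_mul_left h3
    have h4 : (((x 0 + 3 * x 2 : ℤ)) : ZMod 17) = 0 ∧ ((x 1 - x 2 : ℤ) : ZMod 17) = 0 := by
      apply an2
      have := (ZMod.intCast_zmod_eq_zero_iff_dvd _ 17).2 h2
      push_cast at this ⊢
      exact this
    obtain ⟨a, ha⟩ := (ZMod.intCast_zmod_eq_zero_iff_dvd _ 17).1 h4.1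
    obtain ⟨c, hc⟩ := (ZMod.intCast_zmod_eq_zero_iff_dvd _ 17).1 h4.2
    refine ⟨-x 2, ![a, c, 0], ?_⟩
    funext i
    push_cast at ha hc
    fin_cases i
    · show x 0 = -x 2 * 3 + ((17 : ℕ) : ℤ) * a
      push_cast
      linear_combination ha
    · show x 1 = -x 2 * (-1) + ((17 : ℕ) : ℤ) * c
      push_cast
      linear_combination hc
    · show x 2 = -x 2 * (-1) + ((17 : ℕ) : ℤ) * 0
      push_cast
      ring
  ker := by
    intro y
    rw [bi2]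
    refine ⟨2 * y 0, ?_⟩
    simp
    ring
  rr := by
    rw [bi2]
    simp
  jk := by norm_num
  gv := by
    intro v hv
    have h7 := three_bi v
    obtain ⟨q, hq⟩ := hv
    rw [hq] at h7
    have h1 : (17 : ℤ) ∣ 3 * v 0 - v 1 - v 2 := by
      have p : Prime (17 : ℤ) := by norm_num
      apply p.dvd_of_dvd_pow (n := 2)
      refine ⟨3 * q - 4 * (v 1 ^ 2 - v 1 * v 2 + v 2 ^ 2), ?_⟩
      push_cast at h7
      linear_combination -h7
    obtain ⟨a, ha⟩ := h1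
    obtain ⟨b, hb⟩ : ∃ b, -v 0 + 23 * v 1 - 11 * v 2 = 17 * b :=
      ⟨11 * a - 2 * v 0 + 2 * v 1, by linear_combination 11 * ha⟩
    obtain ⟨c, hc⟩ : ∃ c, -v 0 - 11 * v 1 + 23 * v 2 = 17 * c :=
      ⟨11 * a - 2 * v 0 + 2 * v 2, by linear_combination 11 * ha⟩
    have key : ∀ x : Fin 3 → ℤ, bi F2 x ![a, b, c] = 2 * dt v x := by
      intro x
      have e0 : (![a, b, c] : Fin 3 → ℤ) 0 = a := rfl
      have e1 : (![a, b, c] : Fin 3 → ℤ) 1 = b := rfl
      have e2 : (![a, b, c] : Fin 3 → ℤ) 2 = c := rfl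
      rw [bi2, e0, e1, e2]
      apply mul_left_cancel₀ (by norm_num : (17 : ℤ) ≠ 0)
      simp only [dt]
      linear_combination (-(12 * x 0 + x 1 + x 2)) * ha - (x 0 + 2 * x 1 + x 2) * hb -
        (x 0 + x 1 + 2 * x 2) * hc
    refine ⟨![a, b, c], key, ?_⟩
    rw [key, biG2]
    show ((17 : ℕ) : ℤ) * (2 * (v 0 * a + v 1 * b + v 2 * c)) = _
    push_cast
    linear_combination (-2 * v 0) * ha - 2 * v 1 * hb - 2 * v 2 * hc
  sF := fun x y => bi_comm sy2 x y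

/-- no pairs when the symbol at 17 is one -/
theorem no_pairs_R {n1 n2 D : ℕ} {b : ℤ} (h25 : ¬ 17 * 17 ∣ n1) (h5 : 17 ∣ n1) (hD : 0 < D)
    (hDD : (D : ℤ) = n1 * n2 - b ^ 2) (hp : hh n1 D 17 = 1) :
    Nat.card (Pairs G1 n1 n2 b) = 0 ∧ Nat.card (Pairs G2 n1 n2 b) = 0 := by
  constructor
  · have : IsEmpty (Pairs G1 n1 n2 b) := ⟨fun q => by
      have h := hh_ram L1 LR1 (by norm_num) (by norm_num) h25 h5 hD hDD q.2.1 q.2.2.1 q.2.2.2
      rw [hp] at h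
      norm_num at h⟩
    exact Nat.card_of_isEmpty
  · have : IsEmpty (Pairs G2 n1 n2 b) := ⟨fun q => by
      have h := hh_ram L2 LR2 (by norm_num) (by norm_num) h25 h5 hD hDD q.2.1 q.2.2.1 q.2.2.2
      rw [hp] at h
      norm_num at h⟩
    exact Nat.card_of_isEmpty

theorem s_PCR (hT : S_TORS) : S_PCR := by
  intro n1 n2 b D hCr hD hDD
  obtain ⟨hs, h3, h5⟩ := hCr
  have p17 : Nat.Prime 17 := by norm_num
  have h25 : ¬ 17 * 17 ∣ n1 := fun h => p17.one_lt.ne' (Nat.isUnit_iff.1 (hs 17 h))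
  rw [← card_pairs1, ← card_pairs2]
  by_cases h20 : 4 * 17 ∣ D
  · obtain ⟨Q, rfl⟩ := h20
    have hQ : 0 < Q := by omega
    have hDD' : 4 * ((17 : ℕ) : ℤ) * (Q : ℤ) = n1 * n2 - b ^ 2 := by
      rw [← hDD]; push_cast; ring
    have hX := card_XXR p17 (by norm_num) hs h3 h5 hQ hDD'
    have hcnt : 3 * Nat.card (Pairs G1 n1 n2 b) + Nat.card (Pairs G2 n1 n2 b) =
        6 * (XE 17 n1 b Q).card := by
      rw [t_CNTE LE1 (by norm_num) (by omega) (fun v hv => prim_of_sqfree hs hv) hQ hDD',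
        t_CNTE LE2 (by norm_num) (by omega) (fun v hv => prim_of_sqfree hs hv) hQ hDD']
      exact card_framesE n1 b Q hT
    rw [XE_eq_XX p17 (by norm_num) hs (by omega)] at hcnt
    have hcnt' : (3 * Nat.card (Pairs G1 n1 n2 b) + Nat.card (Pairs G2 n1 n2 b) : ℤ) =
        6 * (XX 17 n1 b Q).card := by exact_mod_cast hcnt
    have h5D : 17 ∣ 4 * 17 * Q := ⟨4 * Q, by ring⟩
    unfold locR
    rcases hh_pm p17 h25 h5 hD with hp | hp
    · obtain ⟨z1, z2⟩ := no_pairs_R h25 h5 hD hDD hp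
      rw [z1, z2, hp]
      simp
    · rw [if_pos ⟨h5D, hp⟩, hcnt', hX]
  · rw [no_pairs L1 hDD h20, no_pairs L2 hDD h20]
    unfold locR
    split_ifs with h
    · have h4D : ¬ 4 ∣ D := by
        intro h4
        exact h20 (Nat.Coprime.mul_dvd_of_dvd_of_dvd (by norm_num : Nat.Coprime 4 17) h4 h.1)
      have h2 : D.factorization 2 - 1 = 0 := by
        have : ¬ 2 ≤ D.factorization 2 := by
          intro h2
          exact h4D ((Nat.Prime.pow_dvd_iff_le_factorization Nat.prime_two hD.ne').2 h2)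
        omega
      unfold tw
      rw [h2]
      simp
    · simp

theorem s_PCRE (hT : S_TORS) : S_PCRE := by
  intro n1 n2 b D hCre h4 hD hDD
  obtain ⟨⟨m, rfl, hs, hm⟩, h5⟩ := hCre
  have p17 : Nat.Prime 17 := by norm_num
  have h5m : 17 ∣ m := by
    rcases p17.dvd_mul.1 h5 with h | h
    · exact absurd h (by norm_num)
    · exact h
  have h25m : ¬ 17 * 17 ∣ m := fun h => p17.one_lt.ne' (Nat.isUnit_iff.1 (hs 17 h))
  have h25 : ¬ 17 * 17 ∣ 4 * m := fun h =>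
    h25m ((by norm_num : Nat.Coprime (17 * 17) 4).dvd_of_dvd_mul_left h)
  unfold locRE
  by_cases h20 : 4 * 17 ∣ D
  · obtain ⟨Q, rfl⟩ := h20
    have hQ : 0 < Q := by omega
    have h5D : 17 ∣ 4 * 17 * Q := ⟨4 * Q, by ring⟩
    rcases hh_pm p17 h25 h5 hD with hp | hp
    · obtain ⟨z1, z2⟩ := no_pairs_R h25 h5 hD hDD hp
      rw [← card_pairs1, ← card_pairs2, z1, z2, hp]
      simp
    · have hm1 : 0 < m := Nat.pos_of_ne_zero hs.ne_zero
      rw [cpE hT hs hm hQ h4 hDD (Or.inr ⟨h5m, hp⟩), if_pos ⟨h5D, hp⟩,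
        Pool.Agent.Y155.Z7.S_ram m hm1 17 p17 h5m (by rw [pow_two]; exact h25m), Nat.cast_one,
        one_mul]
  · rw [← card_pairs1, ← card_pairs2, no_pairs L1 hDD h20, no_pairs L2 hDD h20]
    split_ifs with h
    · have h4D : ¬ 4 ∣ D := by
        intro h4
        exact h20 (Nat.Coprime.mul_dvd_of_dvd_of_dvd (by norm_num : Nat.Coprime 4 17) h4 h.1)
      rw [tb_zero hDD h4D]
      simp
    · simp

/-- PCR of P17 -/
theorem t_PCR : S_PCR := s_PCR Pool.Agent.N816.P17.t_TORS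

/-- PCRE of P17 -/
theorem t_PCRE : S_PCRE := s_PCRE Pool.Agent.N816.P17.t_TORS

end Pool.Agent.N970.P17
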